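import Pool.Agent.H46.RF.WRD

/-! Crew RF, part REA: the real is in the extension. -/

set_option autoImplicit false

namespace H94.RF

open ZFSet (pair)
open Pool.Agent.W868
open MeasureTheory H14.ES H46.RF

theorem rea (hC : S_CHK) (hB0 : S_BMS) : S_REA := by
  intro M hM r
  have hB := hM.base
  obtain ⟨Wd, hW, hW'⟩ := exists_Wd hM
  obtain ⟨-, -, -, -, -, -, hcyl⟩ := hB0
  have hpos : ∀ (x : ℕ → Bool) k, 0 < mu ℕ (cyl x k) := by
    intro x k
    rw [hcyl, ENNReal.inv_pos]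
    exact ENNReal.pow_ne_top (by norm_num)
  -- the full tree
  have hWbody : ∀ x : ℕ → Bool, x ∈ body Wd := fun x n => (hW' _).2 ⟨x, n, rfl⟩
  have hWP : Wd ∈ P M := by
    refine ⟨hW, ⟨fun z hz => (hW' z).1 hz, fun x n _ => (hW' _).2 ⟨x, n, rfl⟩⟩, ?_⟩
    exact lt_of_lt_of_le (hpos r 0) (measure_mono fun x _ => hWbody x)
  obtain ⟨h, hh, hev⟩ := hC M hM Wd hW
  -- the conditions `x i = true`
  obtain ⟨S, hS⟩ : ∃ S : ZFSet.{0} → ZFSet.{0},
      S = fun a => ZFSet.sep (fun z => pair a (nat 0) ∉ z) Wd := ⟨_, rfl⟩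
  have hSd : DfnF M M fun w : Fin 1 → ZFSet.{0} => S (w 0) := by
    rw [hS]
    refine hM.sep' (F := fun _ : Fin 1 → ZFSet.{0} => Wd)
      (Q := fun z v => pair (v 0) (nat 0) ∉ z) (DfnF.const hW) ?_
    apply Dfn.not
    apply Dfn.mem
    · exact hB.pair' (DfnF.proj (1 : Fin 2)) (DfnF.const (hM.nat_mem 0))
    · exact DfnF.proj (0 : Fin 2)
  have hSmem : ∀ i x n, ini x n ∈ S (nat i) ↔ ¬ (i < n ∧ x i = false) := by
    intro i x n
    rw [hS]
    simp only [ZFSet.mem_sep]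
    have hb : nat 0 = bz (x i) ↔ x i = false := by
      constructor
      · intro h1
        apply bz_inj
        rw [← h1]
        simp [bz]
      · intro h1
        rw [h1]
        simp [bz]
    rw [pair_mem_ini, hb]
    exact ⟨fun h1 => h1.2, fun h1 => ⟨(hW' _).2 ⟨x, n, rfl⟩, h1⟩⟩
  have hSbody : ∀ i x, x ∈ body (S (nat i)) ↔ x i = true := by
    intro i x
    constructor
    · intro h1
      have h2 := (hSmem i x (i + 1)).1 (h1 (i + 1))
      by_contra h3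
      exact h2 ⟨Nat.lt_succ_self i, Bool.not_eq_true _ ▸ h3⟩
    · intro h1 n
      refine (hSmem i x n).2 fun h2 => ?_
      rw [h1] at h2
      exact absurd h2.2 (by decide)
  have hSP : ∀ i, S (nat i) ∈ P M := by
    intro i
    refine ⟨hSd.1 (fun _ => nat i) fun _ => hM.nat_mem i, ⟨fun z hz => ?_, fun x n h1 => ?_⟩, ?_⟩
    · rw [hS] at hz
      exact (hW' z).1 (ZFSet.mem_sep.1 hz).1
    · rw [hSmem] at h1 ⊢
      intro h2
      exact h1 ⟨h2.1.trans (Nat.lt_succ_self n), h2.2⟩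
    · refine lt_of_lt_of_le (hpos (fun _ => true) (i + 1)) (measure_mono fun x hx => ?_)
      exact (hSbody i x).2 (hx i (Nat.lt_succ_self i))
  have hSTh : ∀ i, S (nat i) ∈ Th M r ↔ r i = true := fun i =>
    ⟨fun h1 => (hSbody i r).1 h1.2, fun h1 => ⟨hSP i, (hSbody i r).2 h1⟩⟩
  -- the name
  obtain ⟨N, hN, hN'⟩ := hM.image_mem hM.infinity (f := fun a => pair (h a) (S a))
    (hB.pair' hh hSd)
  refine ⟨ev (Th M r) N, ⟨N, hN, rfl⟩, fun i => ?_⟩
  have hevi : ∀ j, ev (Th M r) (h (nat j)) = nat j := fun j =>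
    hev (Th M r) ⟨hWP, hWbody r⟩ (nat j) (hM.nat_mem j)
  rw [mem_ev]
  constructor
  · rintro ⟨y, p, h1, h2, h3⟩
    obtain ⟨a, ha, h4⟩ := (hN' _).1 h1
    obtain ⟨j, rfl⟩ := mem_omega_iff.1 ha
    obtain ⟨rfl, rfl⟩ := ZFSet.pair_inj.1 h4
    rw [hevi j] at h3
    obtain rfl := nat_injective h3
    exact (hSTh j).1 h2
  · intro h1
    exact ⟨h (nat i), S (nat i), (hN' _).2 ⟨nat i, mem_omega_iff.2 ⟨i, rfl⟩, rfl⟩,
      (hSTh i).2 h1, hevi i⟩

end H94.RF
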